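import Mathlib
import Pool.Agent.R987.BKR

/-!
# The simultaneous `r`-fold BKR product can be strictly smaller than the intersection of all
binary-associated products, for every `r ≥ 3`

In `{0,1}^2` take `A_1 = A_3 = {x | not both coordinates are 1}`,
`A_2 = {x | x_1 = 1 or x_2 = 0}`, and let `A_m` be the whole space for `m ≥ 4`. Three pairwise
disjoint nonempty sets of coordinates do not exist, so that the simultaneous product is empty. The
whole space is neutral for the binary product, so that every binary-associated product is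
`(A_1 A_2) A_3` or `A_1 (A_2 A_3)`, and both contain the point `00`.
-/

set_option autoImplicit false

open Set

namespace Pool.Agent.Results.MP_3c3b39_pr.StrictContainment

open Pool.Agent.R987.BKR

/-- The first and the third set. -/
def G1 : Set (Fin 2 → Bool) := {y | ¬ (y 0 = true ∧ y 1 = true)}

/-- The second set. -/
def G2 : Set (Fin 2 → Bool) := {y | y 0 = true ∨ y 1 = false}

/-- The point `00`. -/
def p : Fin 2 → Bool := fun _ => false

theorem mem12 (y : Fin 2 → Bool) (h : y 1 = false) : y ∈ bkr G1 G2 ∧ y ∈ bkr G2 G1 := by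
  by_cases h0 : y 0 = true
  · refine ⟨⟨{1}, {0}, by decide, ?_, ?_⟩, ⟨{0}, {1}, by decide, ?_, ?_⟩⟩
    · intro z hz
      have := hz 1 (by simp)
      simp [G1, this, h]
    · intro z hz
      have := hz 0 (by simp)
      simp [G2, this, h0]
    · intro z hz
      have := hz 0 (by simp)
      simp [G2, this, h0]
    · intro z hz
      have := hz 1 (by simp)
      simp [G1, this, h]
  · refine ⟨⟨{0}, {1}, by decide, ?_, ?_⟩, ⟨{1}, {0}, by decide, ?_, ?_⟩⟩
    · intro z hz
      have := hz 0 (by simp)
      simp [G1, this, h0]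
    · intro z hz
      have := hz 1 (by simp)
      simp [G2, this, h]
    · intro z hz
      have := hz 1 (by simp)
      simp [G2, this, h]
    · intro z hz
      have := hz 0 (by simp)
      simp [G1, this, h0]

theorem p_mem_left : p ∈ bkr (bkr G1 G2) G1 := by
  refine ⟨{1}, {0}, by decide, ?_, ?_⟩
  · intro z hz
    exact (mem12 z (hz 1 (by simp))).1
  · intro z hz
    have := hz 0 (by simp)
    simp [G1, this, p]

theorem p_mem_right : p ∈ bkr G1 (bkr G2 G1) := by
  refine ⟨{0}, {1}, by decide, ?_, ?_⟩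
  · intro z hz
    have := hz 0 (by simp)
    simp [G1, this, p]
  · intro z hz
    exact (mem12 z (hz 1 (by simp))).2

theorem ne_univ1 : ¬ (univ : Set (Fin 2 → Bool)) ⊆ G1 := by
  intro h
  have := h (mem_univ (fun _ => true))
  simp [G1] at this

theorem ne_univ2 : ¬ (univ : Set (Fin 2 → Bool)) ⊆ G2 := by
  intro h
  have := h (mem_univ (fun i => decide (i = 1)))
  simp [G2] at this

/-- For every `r ≥ 3` there are a nonempty set `S`, a dimension `d ≥ 1` and sets
`A_1, …, A_r ⊆ S^d` (in Lean: `A 0, …, A (r - 1)`) such that the simultaneous `r`-fold BKR product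
is a proper subset of the intersection of the values of all parenthesisations of the word
`A_1 ⋯ A_r`. -/
theorem result : ∀ r : ℕ, 3 ≤ r → ∃ (S : Type) (_ : Nonempty S) (d : ℕ) (_ : 1 ≤ d)
    (A : ℕ → Set (Fin d → S)),
    simul (fun i : Fin r => A i) ⊂ {x | ∀ t : Bracketing, t.size = r → x ∈ val A t 0} := by
  intro r hr
  refine ⟨Bool, inferInstance, 2, by norm_num, gad G1 G2 G1 0 1 2, ?_⟩
  have hempty : simul (fun i : Fin r => gad G1 G2 G1 0 1 2 i) = ∅ := by
    rw [Set.eq_empty_iff_forall_notMem]
    rintro x ⟨K, hd, hK⟩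
    have hne : ∀ (i : Fin r), (i : ℕ) < 3 → (K i).Nonempty := by
      intro i hi
      rw [Finset.nonempty_iff_ne_empty]
      intro he
      have h1 : cyl x (K i) ⊆ gad G1 G2 G1 0 1 2 i := hK i
      rw [he] at h1
      have h2 : cyl x ∅ = univ := by ext; simp [cyl]
      rw [h2] at h1
      unfold gad at h1
      split_ifs at h1 with a1 a2 a3
      · exact ne_univ1 h1
      · exact ne_univ2 h1
      · exact ne_univ1 h1
      · omega
    obtain ⟨i0, h0⟩ := hne ⟨0, by omega⟩ (by simp)
    obtain ⟨i1, h1⟩ := hne ⟨1, by omega⟩ (by simp)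
    obtain ⟨i2, h2⟩ := hne ⟨2, by omega⟩ (by simp)
    have d01 : i0 ≠ i1 := fun h => Finset.disjoint_left.1
      (hd ⟨0, by omega⟩ ⟨1, by omega⟩ (by simp)) h0 (h ▸ h1)
    have d02 : i0 ≠ i2 := fun h => Finset.disjoint_left.1
      (hd ⟨0, by omega⟩ ⟨2, by omega⟩ (by simp)) h0 (h ▸ h2)
    have d12 : i1 ≠ i2 := fun h => Finset.disjoint_left.1
      (hd ⟨1, by omega⟩ ⟨2, by omega⟩ (by simp)) h1 (h ▸ h2)
    clear h0 h1 h2
    revert i0 i1 i2
    decide
  rw [hempty]
  refine (Set.empty_subset _).ssubset_of_ne ?_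
  intro h
  have hp : p ∈ {x | ∀ t : Bracketing, t.size = r → x ∈ val (gad G1 G2 G1 0 1 2) t 0} := by
    intro t ht
    have h7 := (val_gad G1 G2 G1 (a := 0) (b := 1) (c := 2) (by norm_num) (by norm_num) t
      0).2.2.2.2.2.2.1 le_rfl (by omega)
    rw [h7]
    split_ifs
    · exact p_mem_left
    · exact p_mem_right
  rw [← h] at hp
  exact hp

end Pool.Agent.Results.MP_3c3b39_pr.StrictContainment
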